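import Mathlib

set_option autoImplicit false

namespace Pool.Agent.Results.MP_9c76b4_al.Counter

open Filter Topology

def G : Type := ℕ → ℤ
instance : AddCommGroup G := inferInstanceAs (AddCommGroup (ℕ → ℤ))

def D (m : ℕ → ℕ) : Type := ∀ i, ZMod (3 ^ m i)
instance (m : ℕ → ℕ) : AddCommGroup (D m) := inferInstanceAs (AddCommGroup (∀ i, ZMod (3 ^ m i)))
instance (m : ℕ → ℕ) : TopologicalSpace (D m) := ⊥
instance (m : ℕ → ℕ) : DiscreteTopology (D m) := ⟨rfl⟩

abbrev H := ℕ → ZMod 2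

def ev (g : G) (i : ℕ) : ℤ := g i

def f : G →+ H where
  toFun g i := ev g i
  map_zero' := funext fun _ => Int.cast_zero
  map_add' _ _ := funext fun _ => Int.cast_add _ _

def r (m : ℕ → ℕ) : G →+ D m where
  toFun g i := (ev g i : ZMod (3 ^ m i))
  map_zero' := funext fun _ => Int.cast_zero
  map_add' _ _ := funext fun _ => Int.cast_add _ _

def φ : G →+ H × ∀ m, D m := f.prod (Pi.addMonoidHom r)

instance : TopologicalSpace G := TopologicalSpace.induced φ inferInstance
instance : IsTopologicalAddGroup G := topologicalAddGroup_induced φ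

lemma r_zero (m : ℕ → ℕ) (g : G) : r m g = 0 ↔ ∀ i, ((3 ^ m i : ℕ) : ℤ) ∣ ev g i :=
  funext_iff.trans (forall_congr' fun _ => ZMod.intCast_zmod_eq_zero_iff_dvd _ _)

lemma φ_cont : Continuous φ := continuous_induced_dom
lemma f_cont : Continuous f := φ_cont.fst
lemma r_cont (m : ℕ → ℕ) : Continuous (r m) :=
  (continuous_apply m).comp φ_cont.snd

lemma lift (M : ℕ → ℕ) (h : H) : ∃ g : G, f g = h ∧ ∀ i, ((3 ^ M i : ℕ) : ℤ) ∣ ev g i :=
  ⟨fun i => (3 ^ M i : ℕ) * (h i).val, funext fun i => by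
    change (((3 ^ M i : ℕ) * (h i).val : ℤ) : ZMod 2) = h i
    push_cast
    rw [show (3 : ZMod 2) = 1 from rfl]; simp, fun _ => dvd_mul_right _ _⟩

lemma f_open : IsOpenMap f := by
  refine IsOpenMap.of_nhds_le fun x => ?_
  intro S hS
  rw [mem_map, nhds_induced, mem_comap] at hS
  obtain ⟨T, hT, hS⟩ := hS
  obtain ⟨U, hU, W, hW, hUW⟩ := mem_nhds_prod_iff.mp hT
  rw [nhds_pi, mem_pi] at hW
  obtain ⟨I, hI, t, ht, hW⟩ := hW
  refine mem_of_superset hU fun h hh => ?_
  obtain ⟨g, h1, h2⟩ := lift (fun i => hI.toFinset.sup fun m => m i) (h - f x)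
  have h3 : f (x + g) = h := by rw [map_add, h1, add_sub_cancel]
  rw [← h3]
  refine hS (hUW ⟨show f (x + g) ∈ U from h3 ▸ hh, hW fun m hm => ?_⟩)
  have : r m g = 0 := (r_zero m g).mpr fun i => dvd_trans (Int.natCast_dvd_natCast.mpr
    (pow_dvd_pow 3 (Finset.le_sup (f := fun m : ℕ → ℕ => m i) (hI.mem_toFinset.mpr hm)))) (h2 i)
  change r m (x + g) ∈ t m
  rw [map_add, this, add_zero]
  exact mem_of_mem_nhds (ht m)

theorem result : ∃ (G H : Type) (_ : AddCommGroup G) (_ : TopologicalSpace G)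
    (_ : IsTopologicalAddGroup G) (_ : AddCommGroup H) (_ : TopologicalSpace H)
    (_ : IsTopologicalAddGroup H) (f : G →+ H), Continuous f ∧ IsOpenMap f ∧
    Function.Surjective f ∧ ∀ s : H → G, (∀ h, f (s h) = h) → s 0 = 0 →
      ¬ ContinuousAt (fun p : H × H => s p.1 + s p.2 - s (p.1 + p.2)) (0, 0) := by
  refine ⟨G, H, inferInstance, inferInstance, inferInstance, inferInstance, inferInstance,
    inferInstance, f, f_cont, f_open, fun h => (lift 0 h).imp fun _ => And.left, fun s hs h0 hc => ?_⟩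
  let e : ℕ → H := fun j => Pi.single j 1
  have h1 : Tendsto e atTop (𝓝 0) := tendsto_pi_nhds.mpr fun i => tendsto_const_nhds.congr' (by
    filter_upwards [eventually_gt_atTop i] with j hj
    simp [e, hj.ne])
  let m : ℕ → ℕ := fun j => (2 * ev (s (e j)) j).natAbs
  have h2 := ((r_cont m).tendsto _).comp (hc.tendsto.comp (h1.prodMk_nhds h1))
  simp only [h0, add_zero, sub_zero, map_zero, nhds_discrete, tendsto_pure] at h2
  obtain ⟨j, hj⟩ := h2.exists
  have h3 : e j + e j = 0 := funext fun i => CharTwo.add_self_eq_zero _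
  simp only [Function.comp_apply, h3, h0, sub_zero, r_zero] at hj
  have h4 : ev (s (e j) + s (e j)) j = 0 := by
    refine Int.eq_zero_of_abs_lt_dvd (hj j) ?_
    rw [show ev (s (e j) + s (e j)) j = 2 * ev (s (e j)) j from (two_mul _).symm, Int.abs_eq_natAbs]
    exact_mod_cast Nat.lt_pow_self (by norm_num)
  have h5 : ev (s (e j)) j = 0 := by
    have : ev (s (e j)) j + ev (s (e j)) j = 0 := h4
    omega
  have h6 : ((ev (s (e j)) j : ℤ) : ZMod 2) = e j j := congrFun (hs (e j)) j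
  rw [h5] at h6
  simp [e] at h6

end Pool.Agent.Results.MP_9c76b4_al.Counter
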