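import Mathlib

namespace Pool.Agent.Results.MP_9c76b4_al.Neg

open Set Filter Topology

/-- Quasihomomorphisms, written additively. -/
def IsQuasiHom {G H : Type} [AddGroup G] [AddGroup H] [TopologicalSpace G] [TopologicalSpace H]
    (t : H → G) : Prop :=
  t 0 = 0 ∧ ContinuousAt (fun p : H × H => t p.1 + t p.2 - t (p.1 + p.2)) (0, 0) ∧
    ∀ y : H, ContinuousAt (fun h : H => t y + t h - t y - t (y + h - y)) 0

/-- Integer sequences. -/
def Z : Type := ℕ → ℤ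

instance : AddCommGroup Z := inferInstanceAs (AddCommGroup (ℕ → ℤ))

/-- Basic open subgroups. -/
def V (n : ℕ) (φ : ℕ → ℕ) : AddSubgroup Z where
  carrier := {x | (∀ i < n, x i = 0) ∧ ∀ i, (3 : ℤ) ^ φ i ∣ x i}
  zero_mem' := ⟨fun _ _ => rfl, fun _ => dvd_zero _⟩
  add_mem' := fun {a b} ha hb => ⟨fun i hi => by
    show a i + b i = 0
    rw [ha.1 i hi, hb.1 i hi, add_zero], fun i => (ha.2 i).add (hb.2 i)⟩
  neg_mem' := fun {a} ha => ⟨fun i hi => by
    show -a i = 0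
    rw [ha.1 i hi, neg_zero], fun i => (ha.2 i).neg_right⟩

/-- The filter basis. -/
@[reducible] def B : AddGroupFilterBasis Z where
  sets := {U | ∃ n φ, U = V n φ}
  nonempty := ⟨_, 0, 0, rfl⟩
  inter_sets := by
    rintro _ _ ⟨n, φ, rfl⟩ ⟨m, ψ, rfl⟩
    exact ⟨_, ⟨max n m, φ ⊔ ψ, rfl⟩, fun x hx =>
      ⟨⟨fun i hi => hx.1 i (lt_max_of_lt_left hi),
        fun i => (pow_dvd_pow _ le_sup_left).trans (hx.2 i)⟩,
      ⟨fun i hi => hx.1 i (lt_max_of_lt_right hi),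
        fun i => (pow_dvd_pow _ le_sup_right).trans (hx.2 i)⟩⟩⟩
  zero' := by rintro _ ⟨n, φ, rfl⟩; exact (V n φ).zero_mem
  add' := by
    rintro _ ⟨n, φ, rfl⟩
    exact ⟨_, ⟨n, φ, rfl⟩, by rintro _ ⟨a, ha, b, hb, rfl⟩; exact (V n φ).add_mem ha hb⟩
  neg' := by rintro _ ⟨n, φ, rfl⟩; exact ⟨_, ⟨n, φ, rfl⟩, fun a ha => (V n φ).neg_mem ha⟩
  conj' := by
    rintro x _ ⟨n, φ, rfl⟩
    exact ⟨_, ⟨n, φ, rfl⟩, fun a ha => by simpa using ha⟩

instance : TopologicalSpace Z := B.topology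

instance : IsTopologicalAddGroup Z := B.isTopologicalAddGroup

lemma nh {W : Set Z} : W ∈ 𝓝 (0 : Z) ↔ ∃ n φ, (V n φ : Set Z) ⊆ W := by
  rw [B.nhds_zero_hasBasis.mem_iff]
  exact ⟨fun ⟨_, ⟨n, φ, e⟩, h⟩ => ⟨n, φ, e ▸ h⟩, fun ⟨n, φ, h⟩ => ⟨_, ⟨n, φ, rfl⟩, h⟩⟩

/-- Reduction modulo two. -/
def f : Z →+ (ℕ → ZMod 2) where
  toFun x i := (x i : ℤ)
  map_zero' := funext fun _ => Int.cast_zero
  map_add' a b := funext fun i => Int.cast_add (a i) (b i)

theorem result : ∃ (G H : Type) (_ : AddCommGroup G) (_ : AddCommGroup H) (_ : TopologicalSpace G)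
    (_ : TopologicalSpace H), IsTopologicalAddGroup G ∧ IsTopologicalAddGroup H ∧ T2Space G ∧
      T2Space H ∧ ∃ f : G →+ H, Continuous f ∧ IsOpenMap f ∧ Function.Surjective f ∧
        ∀ s : H → G, f ∘ s = id → ¬ IsQuasiHom s := by
  have hl : ∀ (n : ℕ) (φ : ℕ → ℕ) (y : ℕ → ZMod 2), (∀ i < n, y i = 0) → ∃ x ∈ V n φ, f x = y := by
    intro n φ y hy
    refine ⟨fun i => 3 ^ φ i * (y i).val, ⟨fun i hi => by simp [hy i hi], fun i => dvd_mul_right _ _⟩,
      funext fun i => ?_⟩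
    have : (3 : ZMod 2) = 1 := by decide
    simp [f, this]
  have hU : ∀ n : ℕ, {y : ℕ → ZMod 2 | ∀ i < n, y i = 0} ∈ 𝓝 (0 : ℕ → ZMod 2) := fun n =>
    (eventually_all_finite (finite_lt_nat n)).2 fun i _ => by
      have h : IsOpen {y : ℕ → ZMod 2 | y i = 0} :=
        IsOpen.preimage (f := fun y : ℕ → ZMod 2 => y i) (continuous_apply i) (isOpen_discrete {0})
      exact h.mem_nhds rfl
  refine ⟨Z, ℕ → ZMod 2, inferInstance, inferInstance, inferInstance, inferInstance, inferInstance,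
    inferInstance, ?_, inferInstance, f, ?_, ?_, fun y => ?_, fun s hs h => ?_⟩
  · refine IsTopologicalAddGroup.t2Space_of_zero_sep fun x hx => ?_
    obtain ⟨i, hi⟩ := Function.ne_iff.1 hx
    exact ⟨V (i + 1) 0, nh.2 ⟨_, _, Subset.rfl⟩, fun h => hi (h.1 i (Nat.lt_succ_self i))⟩
  · refine continuous_of_continuousAt_zero f ?_
    rw [ContinuousAt, map_zero, tendsto_pi_nhds]
    intro i
    refine tendsto_const_nhds.congr' (mem_of_superset (nh.2 ⟨i + 1, 0, Subset.rfl⟩) fun x hx => ?_)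
    simp [f, hx.1 i (Nat.lt_succ_self i)]
  · refine IsTopologicalAddGroup.isOpenMap_iff_nhds_zero.2 fun W hW => ?_
    obtain ⟨n, φ, h⟩ := nh.1 hW
    refine mem_of_superset (hU n) fun y hy => ?_
    obtain ⟨x, hx, rfl⟩ := hl n φ y hy
    exact h hx
  · obtain ⟨x, -, h⟩ := hl 0 0 y (by simp)
    exact ⟨x, h⟩
  · let e : ℕ → ℕ → ZMod 2 := fun i => Pi.single i 1
    have he : Tendsto e atTop (𝓝 0) := tendsto_pi_nhds.2 fun j => tendsto_const_nhds.congr'
      ((eventually_gt_atTop j).mono fun i hi => by simp [e, hi.ne])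
    have h1 := h.2.1.tendsto.comp (he.prodMk_nhds he)
    simp only [add_zero, h.1, sub_zero] at h1
    obtain ⟨i, hi⟩ := (h1.eventually
      (nh.2 ⟨0, fun i => (s (e i) i + s (e i) i).natAbs, Subset.rfl⟩)).exists
    have h2 : e i + e i = 0 := funext fun j => CharTwo.add_self_eq_zero _
    have h3 := hi.2 i
    simp only [Function.comp, h2, h.1, sub_zero] at h3
    have h4 := Int.eq_zero_of_dvd_of_natAbs_lt_natAbs h3 (by
      rw [Int.natAbs_pow]; exact Nat.lt_pow_self (by norm_num))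
    have h5 : s (e i) i = 0 := by
      have : s (e i) i + s (e i) i = 0 := h4
      omega
    have h6 := congrFun (congrFun hs (e i)) i
    simp [f, h5, e] at h6

end Pool.Agent.Results.MP_9c76b4_al.Neg
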